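import Pool.Agent.H10.WoB

set_option autoImplicit false

namespace Pool.Agent.Results.MP_3fe7c1_an.SlowOrbit

open scoped NNReal

/-- MP_3fe7c1_an, Q1 disproved (the negated form of the problem file): a complex Banach space, a
weakly stable, not exponentially stable strongly continuous semigroup on it and an admissible rate
`a` such that every weak orbit is strictly below `a` at some time, even at arbitrarily late
times. -/
theorem result :
    ∃ (X : Type) (_ : NormedAddCommGroup X) (_ : NormedSpace ℂ X) (_ : CompleteSpace X)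
      (T : ℝ≥0 → X →L[ℂ] X) (a : ℝ≥0 → ℝ),
      H10Wo.IsC0Semigroup T ∧ H10Wo.WeaklyStable T ∧ ¬ H10Wo.ExponentiallyStable T ∧
        H10Wo.AdmissibleRate a ∧
        ∀ (x : X) (y : X →L[ℂ] ℂ) (N : ℝ≥0), ∃ t : ℝ≥0, N ≤ t ∧ ‖y (T t x)‖ < a t :=
  H10Wo.main

end Pool.Agent.Results.MP_3fe7c1_an.SlowOrbit
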